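import Pool.Agent.Helper543.SteinerTwo

set_option autoImplicit false

namespace Pool.Agent.Results.MP_b59edb_co.AllPairSystems

open Finset Pool.Agent.Helper543.Steiner

/-- `c(k,2) = (k-3)/(k-2)` for every `k ≥ 4`: this number is the greatest admissible exponent, and
hence the supremum of the admissible exponents.  For all `t ≥ 2`, `k ≥ t + 2` the exponent
`(k-t-1)/(k-2)` is admissible.  Systems `S(2,k,v)` exist for arbitrarily large `v`, and the upper
chromatic number is the greatest number of colours of a proper colouring. -/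
theorem result :
    (∀ k : ℕ, 4 ≤ k →
      IsGreatest (Admissible k 2) (((k : ℝ) - 3) / ((k : ℝ) - 2)) ∧
      sSup (Admissible k 2) = ((k : ℝ) - 3) / ((k : ℝ) - 2) ∧
      ∀ N : ℕ, ∃ v, N ≤ v ∧ ∃ B : Finset (Finset (Fin v)), IsSteiner 2 k B) ∧
    (∀ t k : ℕ, 2 ≤ t → t + 2 ≤ k →
      ((k : ℝ) - t - 1) / ((k : ℝ) - 2) ∈ Admissible k t) ∧
    (∀ (t k v : ℕ) (B : Finset (Finset (Fin v))), 2 ≤ k → IsSteiner t k B →
      IsGreatest {m | ∃ φ : Fin v → ℕ, Proper B φ ∧ (univ.image φ).card = m}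
        (upperChromatic B)) := by
  refine ⟨fun k hk => ⟨greatest_two hk, (greatest_two hk).csSup_eq, fun N => ?_⟩, ?_, ?_⟩
  · obtain ⟨w, hw, -, D, hD⟩ := family (k := k) (by omega) N
    exact ⟨w, hw, D, hD⟩
  · intro t k ht hk
    have hkr : ((t + 2 : ℕ) : ℝ) ≤ k := by exact_mod_cast hk
    have htr : (2 : ℝ) ≤ t := by exact_mod_cast ht
    push_cast at hkr
    refine ⟨div_nonneg (by linarith) (by linarith), ?_⟩
    obtain ⟨C, hC, h⟩ := lower_bound ht hk
    exact ⟨C, hC, fun v _ B hB => h v B hB⟩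
  · intro t k v B hk hB
    refine ⟨upper_attained (fun b hb => by rw [hB.1 b hb]; omega), fun m hm => ?_⟩
    obtain ⟨φ, hφ, rfl⟩ := hm
    exact le_upper hφ

end Pool.Agent.Results.MP_b59edb_co.AllPairSystems
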