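import Pool.Agent.Helper543.SteinerLower

set_option autoImplicit false

namespace Pool.Agent.Results.MP_b59edb_co.DeletionExponent

open Finset Pool.Agent.Helper543.Steiner

/-- Every Steiner system `S(t,k,v)` with `2 ≤ t`, `t + 2 ≤ k` has upper chromatic number at least
`C * v ^ ((k-t-1)/(k-2))`, with `C > 0` depending on `k` and `t` only; the upper chromatic number
used is the number of colours of an actual proper colouring, and the greatest such number. -/
theorem result :
    ∀ t k : ℕ, 2 ≤ t → t + 2 ≤ k →
      (∃ C : ℝ, 0 < C ∧ ∀ (v : ℕ) (B : Finset (Finset (Fin v))), IsSteiner t k B →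
        C * (v : ℝ) ^ (((k : ℝ) - t - 1) / ((k : ℝ) - 2)) ≤ upperChromatic B) ∧
      (∀ (v : ℕ) (B : Finset (Finset (Fin v))), IsSteiner t k B →
        IsGreatest {m | ∃ φ : Fin v → ℕ, Proper B φ ∧ (univ.image φ).card = m}
          (upperChromatic B)) := by
  intro t k ht hk
  refine ⟨lower_bound ht hk, fun v B hB => ⟨?_, fun m hm => ?_⟩⟩
  · exact upper_attained (fun b hb => by rw [hB.1 b hb]; omega)
  · obtain ⟨φ, hφ, rfl⟩ := hm
    exact le_upper hφ

end Pool.Agent.Results.MP_b59edb_co.DeletionExponent
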